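import Mathlib
import Pool.Agent.H93.CanMeet

set_option autoImplicit false

namespace Pool.Agent.Results.MP_54f706_an.Infinite

open Set

/-- The unit circle meets the square of the middle-third Cantor set in infinitely many points. -/
theorem result :
    {p : ℝ × ℝ | p.1 ^ 2 + p.2 ^ 2 = 1 ∧ p.1 ∈ cantorSet ∧ p.2 ∈ cantorSet}.Infinite := by
  refine Set.Infinite.of_image (fun p => 1 / p.2) (Set.infinite_of_forall_exists_gt fun a => ?_)
  obtain ⟨k, hk⟩ := pow_unbounded_of_one_lt a (by norm_num : (1 : ℝ) < 3)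
  obtain ⟨x, hx, y, hy, h1, h2, h3⟩ := Pool.Agent.H93.CanMeet.circle_pt k
  refine ⟨1 / y, ⟨(x, y), ⟨h1, hx, hy⟩, rfl⟩, ?_⟩
  rw [le_div_iff₀ (by positivity), pow_succ] at h3
  rw [lt_div_iff₀ h2]
  nlinarith [mul_pos h2 (pow_pos (by norm_num : (0 : ℝ) < 3) k)]

end Pool.Agent.Results.MP_54f706_an.Infinite
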